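import Mathlib

/-!
# A graph with `φ(G) < χ(G) - ω(G)`

Let `F` be the circulant graph on 33 vertices with differences `±1, ±6, ±10, ±15`. It has no triangle
and no independent set of 9 vertices. Let `G` be its complement. Then `ω(G) ≤ 8` and `χ(G) ≥ 17`, as
independent sets of `G` have at most two vertices. Colour the vertices `2 i` and `2 i + 1` by the
colour `i`. A set of vertices with pairwise distinct colours has chromatic number at least half its
size, so that an induced subgraph `H` with `m ≤ 17` colours has `χ(H) ≥ m / 2`, and `m - χ(H) ≤ 8`.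
-/

set_option autoImplicit false

namespace Pool.Agent.Results.MP_2248a2_co.SmallDiscrepancy

open SimpleGraph

/-- The chromatic discrepancy `φ(G)`: the least `d` such that `G` has a proper colouring in which every
induced subgraph `H` receives at most `χ(H) + d` colours. -/
noncomputable def discrepancy {V : Type*} (G : SimpleGraph V) : ℕ :=
  sInf {d | ∃ c : V → ℕ, (∀ u v, G.Adj u v → c u ≠ c v) ∧
    ∀ H : Set V, ((c '' H).ncard : ℕ∞) ≤ (G.induce H).chromaticNumber + d}

/-- the differences `1, 6, 10, 15, 18, 23, 27, 32` -/
def test (x : Fin 33) : Bool :=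
  Nat.testBit (2 ^ 1 + 2 ^ 6 + 2 ^ 10 + 2 ^ 15 + 2 ^ 18 + 2 ^ 23 + 2 ^ 27 + 2 ^ 32) x.val

theorem test_neg : ∀ x : Fin 33, test x = true → test (-x) = true := by decide

theorem test_add : ∀ x : Fin 33, test x = true → ∀ y : Fin 33, test y = true →
    test (x + y) = false := by decide

/-- the circulant graph -/
def F : SimpleGraph (Fin 33) where
  Adj a b := test (b - a) = true
  symm := ⟨fun a b h => by
    have := test_neg _ h
    rwa [neg_sub] at this⟩
  loopless := ⟨fun a h => by
    rw [sub_self] at h
    exact absurd h (by decide)⟩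

/-- its complement -/
def G : SimpleGraph (Fin 33) := Fᶜ

/-- a branching procedure: `chk f L k` implies that the independent subsets of `L` have at most `k`
elements -/
def chk : ℕ → List (Fin 33) → ℕ → Bool
  | 0, _, _ => false
  | f + 1, L, k => L.length.ble k || match L, k with
    | [], _ => true
    | _ :: _, 0 => false
    | v :: L', k + 1 => chk f (L'.filter fun w => !test (w - v)) k && chk f L' (k + 1)

theorem chk_sound (f : ℕ) (L : List (Fin 33)) (k : ℕ) (h : chk f L k = true)
    (T : Finset (Fin 33)) (hT : ∀ x ∈ T, x ∈ L) (hI : ∀ x ∈ T, ∀ y ∈ T, ¬ F.Adj x y) :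
    T.card ≤ k := by
  induction f generalizing L k T with
  | zero => simp [chk] at h
  | succ f ih =>
    unfold chk at h
    rw [Bool.or_eq_true] at h
    rcases h with h | h
    · have h1 : L.length ≤ k := Nat.le_of_ble_eq_true h
      have h2 : T ⊆ L.toFinset := fun x hx => by simpa using hT x hx
      exact (Finset.card_le_card h2).trans ((List.toFinset_card_le L).trans h1)
    · match L, k, h, hT with
      | [], _, _, hT =>
        have : T = ∅ := by
          rw [Finset.eq_empty_iff_forall_notMem]
          intro x hx
          exact absurd (hT x hx) (by simp)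
        rw [this]; simp
      | v :: L', k + 1, h, hT =>
        rw [Bool.and_eq_true] at h
        by_cases hv : v ∈ T
        · have h1 : (T.erase v).card ≤ k := by
            apply ih _ _ h.1
            · intro x hx
              have hxT := Finset.mem_of_mem_erase hx
              have hne := Finset.ne_of_mem_erase hx
              rw [List.mem_filter]
              refine ⟨(List.mem_cons.1 (hT x hxT)).resolve_left hne, ?_⟩
              have := hI v hv x hxT
              simpa [F] using this
            · intro x hx y hy
              exact hI x (Finset.mem_of_mem_erase hx) y (Finset.mem_of_mem_erase hy)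
          rw [Finset.card_erase_of_mem hv] at h1
          omega
        · apply ih _ _ h.2
          · intro x hx
            have hne : x ≠ v := fun e => hv (e ▸ hx)
            exact (List.mem_cons.1 (hT x hx)).resolve_left hne
          · exact hI

set_option maxRecDepth 100000 in
theorem chk_true : chk 34 (List.finRange 33) 8 = true := by decide +kernel

theorem cliqueNum_le : G.cliqueNum ≤ 8 := by
  obtain ⟨s, hs⟩ := G.exists_isNClique_cliqueNum
  rw [← hs.card_eq]
  apply chk_sound _ _ _ chk_true s (fun x _ => List.mem_finRange x)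
  intro x hx y hy hxy
  have hne : x ≠ y := hxy.ne
  have := hs.isClique hx hy hne
  exact this.2 hxy

/-- a set of vertices of an `m`-colourable induced subgraph has at most `2 m` elements -/
theorem card_le_two_mul (H : Set (Fin 33)) (m : ℕ) (hC : (G.induce H).Colorable m)
    (R : Finset (Fin 33)) (hR : ∀ x ∈ R, x ∈ H) : R.card ≤ 2 * m := by
  classical
  obtain ⟨C⟩ := hC
  by_contra hlt
  push Not at hlt
  have hcard : (Finset.univ : Finset (Fin m)).card * 2 < R.attach.card := by
    rw [Finset.card_attach, Finset.card_univ, Fintype.card_fin]; omega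
  obtain ⟨j, -, hj⟩ := Finset.exists_lt_card_fiber_of_mul_lt_card_of_maps_to
    (f := fun x : {x // x ∈ R} => C ⟨x.1, hR x.1 x.2⟩) (fun _ _ => Finset.mem_univ _) hcard
  obtain ⟨a, b, c, ha, hb, hc, hab, hac, hbc⟩ := Finset.two_lt_card_iff.1 hj
  simp only [Finset.mem_filter, Finset.mem_attach, true_and] at ha hb hc
  have key : ∀ x y : {x // x ∈ R}, x ≠ y → C ⟨x.1, hR x.1 x.2⟩ = j → C ⟨y.1, hR y.1 y.2⟩ = j →
      F.Adj x.1 y.1 := by
    intro x y hne hx hy
    by_contra hn
    have hadj : (G.induce H).Adj ⟨x.1, hR x.1 x.2⟩ ⟨y.1, hR y.1 y.2⟩ :=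
      ⟨fun e => hne (Subtype.ext e), hn⟩
    exact C.valid hadj (hx.trans hy.symm)
  have h1 := key a b hab ha hb
  have h2 := key b c hbc hb hc
  have h3 := key a c hac ha hc
  have h4 := test_add _ h1 _ h2
  have h5 : (b.1 - a.1) + (c.1 - b.1) = c.1 - a.1 := by abel
  rw [h5] at h4
  exact absurd (show test (c.1 - a.1) = true from h3) (by rw [h4]; decide)

theorem chromaticNumber_ge : ((17 : ℕ) : ℕ∞) ≤ G.chromaticNumber := by
  rw [SimpleGraph.le_chromaticNumber_iff_colorable]
  intro m hm
  have h1 : (G.induce Set.univ).Colorable m := hm.of_hom (Embedding.induce _).toHom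
  have h2 := card_le_two_mul Set.univ m h1 Finset.univ (fun _ _ => trivial)
  rw [Finset.card_univ, Fintype.card_fin] at h2
  omega

theorem proper : ∀ u v : Fin 33, u ≠ v → u.val / 2 = v.val / 2 → test (v - u) = true := by
  decide

theorem discrepancy_le : discrepancy G ≤ 8 := by
  apply Nat.sInf_le
  refine ⟨fun v => v.val / 2, ?_, ?_⟩
  · intro u v huv h
    exact huv.2 (proper u v huv.1 h)
  · intro H
    set c : Fin 33 → ℕ := fun v => v.val / 2 with hc
    obtain ⟨R, hRH, hbij⟩ := Set.exists_subset_bijOn H c
    have hR : (c '' H).ncard = R.ncard := by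
      rw [← hbij.image_eq, hbij.injOn.ncard_image]
    have h17 : (c '' H).ncard ≤ 17 := by
      have hsub : c '' H ⊆ ((Finset.range 17 : Finset ℕ) : Set ℕ) := by
        rintro _ ⟨v, -, rfl⟩
        simp only [hc, Finset.coe_range, Set.mem_Iio]
        omega
      have := Set.ncard_le_ncard hsub (Finset.finite_toSet _)
      simpa using this
    obtain ⟨m, hm⟩ := ENat.ne_top_iff_exists.1
      (chromaticNumber_ne_top_iff_exists.2 ⟨_, colorable_chromaticNumber_of_fintype (G.induce H)⟩)
    have hcol : (G.induce H).Colorable m := by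
      rw [← chromaticNumber_le_iff_colorable, hm]
    have h2 : R.ncard ≤ 2 * m := by
      classical
      have h3 := card_le_two_mul H m hcol R.toFinite.toFinset (fun x hx => hRH (R.toFinite.mem_toFinset.1 hx))
      rwa [Set.ncard_eq_toFinset_card R]
    rw [← hm]
    have h4 : (c '' H).ncard ≤ m + 8 := by omega
    exact_mod_cast h4

/-- **`φ(G) ≥ χ(G) - ω(G)` fails.** -/
theorem result : ∃ (V : Type) (_ : Fintype V) (G : SimpleGraph V),
    ((discrepancy G + G.cliqueNum : ℕ) : ℕ∞) < G.chromaticNumber := by
  refine ⟨Fin 33, inferInstance, G, ?_⟩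
  refine lt_of_lt_of_le ?_ chromaticNumber_ge
  have h1 := discrepancy_le
  have h2 := cliqueNum_le
  have : discrepancy G + G.cliqueNum < 17 := by omega
  exact_mod_cast this

end Pool.Agent.Results.MP_2248a2_co.SmallDiscrepancy
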